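import Pool.Agent.H141R2.FS.Main1
import Pool.Agent.H141R2.FS.TS4

set_option autoImplicit false

open Filter

namespace Pool.Agent.Results.MP_40574a_nt.AlmostPrimeQuadruple

/-- There are absolute constants `R` and `N₀` such that every `n ≥ N₀` not divisible by `4` has a
representation `n = x² + y² + z² + w²` in natural numbers for which `p = x + 2 y + 5 z` is prime and
`(p - 2) (p + 4) (p + 10)` has at most `R` prime factors (counted with multiplicity); moreover
`29 n ≤ p² ≤ 30 n`. -/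
theorem result :
    ∃ R N₀ : ℕ, ∀ n : ℕ, N₀ ≤ n → ¬ 4 ∣ n →
      ∃ x y z w p : ℕ, n = x ^ 2 + y ^ 2 + z ^ 2 + w ^ 2 ∧ p = x + 2 * y + 5 * z ∧
        29 * n ≤ p ^ 2 ∧ p ^ 2 ≤ 30 * n ∧ 2 < p ∧ p.Prime ∧
        ((p - 2) * (p + 4) * (p + 10)).primeFactorsList.length ≤ R := by
  set ρ : ℝ := √(29 / 30) with hρ
  have hρ0 : 1 / 2 ≤ ρ := by
    rw [hρ]
    apply Real.le_sqrt_of_sq_le
    norm_num
  have hρ1 : ρ < 1 := by
    rw [hρ, Real.sqrt_lt' one_pos]
    norm_num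
  obtain ⟨R, hR⟩ := Pool.Agent.H141R2.FS.core hρ0 hρ1
  have ht : Tendsto (fun n : ℕ => √(30 * (n : ℝ))) atTop atTop := by
    apply Tendsto.comp Real.tendsto_sqrt_atTop
    exact tendsto_natCast_atTop_atTop.const_mul_atTop (by norm_num)
  have h := ht.eventually hR
  rw [eventually_atTop] at h
  obtain ⟨N₀, hN⟩ := h
  refine ⟨R, max N₀ 1, fun n hn h4 => ?_⟩
  obtain ⟨p, hp, hpm, hp1, hp2, hpR⟩ := hN n ((le_max_left _ _).trans hn)
  have hn1 : 1 ≤ n := (le_max_right _ _).trans hn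
  have hp3 : p ^ 2 ≤ 30 * n := by
    have h1 : (p : ℝ) ^ 2 ≤ 30 * n := by
      rw [← Real.sq_sqrt (show (0 : ℝ) ≤ 30 * n by positivity)]
      exact pow_le_pow_left₀ (by positivity) hp2 2
    exact_mod_cast h1
  have hp4 : 29 * n ≤ p ^ 2 := by
    have h0 : ρ * √(30 * (n : ℝ)) = √(29 * n) := by
      rw [hρ, ← Real.sqrt_mul (by norm_num)]
      congr 1
      ring
    rw [h0] at hp1
    have h1 : (29 : ℝ) * n ≤ p ^ 2 := by
      rw [← Real.sq_sqrt (show (0 : ℝ) ≤ 29 * n by positivity)]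
      exact pow_le_pow_left₀ (Real.sqrt_nonneg _) hp1.le 2
    exact_mod_cast h1
  have hp5 : Nat.Coprime p 30 := by
    have h30 : (30 : ℕ) = 2 * 3 * 5 := by norm_num
    rw [Nat.Prime.coprime_iff_not_dvd hp]
    intro hd
    rw [h30, hp.dvd_mul, hp.dvd_mul] at hd
    rcases hd with (hd | hd) | hd
    · have := Nat.le_of_dvd (by norm_num) hd
      have := Nat.mod_le p 210
      omega
    · have := Nat.le_of_dvd (by norm_num) hd
      have := Nat.mod_le p 210
      omega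
    · have := Nat.le_of_dvd (by norm_num) hd
      have := Nat.mod_le p 210
      omega
  have hp6 : 2 < p := by
    have := Nat.mod_le p 210
    omega
  obtain ⟨x, y, z, w, h3, h5⟩ := Pool.Agent.H141R2.FS.rep h4 hp5 hp4 hp3
  refine ⟨x, y, z, w, p, h3, h5.symm, hp4, hp3, hp6, hp, ?_⟩
  have h6 : Pool.Agent.H141R2.FS.ff p = (p - 2) * (p + 4) * (p + 10) := by
    obtain ⟨k, rfl⟩ := Nat.exists_eq_add_of_le hp6.le
    unfold Pool.Agent.H141R2.FS.ff
    have h7 : (((2 + k : ℕ) : ℤ) - 2) * (((2 + k : ℕ) : ℤ) + 4) * (((2 + k : ℕ) : ℤ) + 10) =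
        (((2 + k - 2) * (2 + k + 4) * (2 + k + 10) : ℕ) : ℤ) := by
      rw [Nat.add_sub_cancel_left]
      push_cast
      ring
    rw [h7, Int.natAbs_natCast]
  rw [← h6]
  exact hpR

end Pool.Agent.Results.MP_40574a_nt.AlmostPrimeQuadruple
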