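import Pool.Agent.H141R2.FS.Main1

set_option autoImplicit false

namespace Pool.Agent.Results.MP_40574a_nt.LinearFormValues

/-- Let `4 ∤ n`.  Every natural number `p` coprime to `30` with `29 n ≤ p² ≤ 30 n` is the value of
`x + 2 y + 5 z` at a representation `n = x² + y² + z² + w²` with natural numbers `x, y, z, w`. -/
theorem result :
    ∀ n p : ℕ, ¬ 4 ∣ n → Nat.Coprime p 30 → 29 * n ≤ p ^ 2 → p ^ 2 ≤ 30 * n →
      ∃ x y z w : ℕ, n = x ^ 2 + y ^ 2 + z ^ 2 + w ^ 2 ∧ p = x + 2 * y + 5 * z := by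
  intro n p h4 hp h1 h2
  obtain ⟨x, y, z, w, h3, h5⟩ := Pool.Agent.H141R2.FS.rep h4 hp h1 h2
  exact ⟨x, y, z, w, h3, h5.symm⟩

end Pool.Agent.Results.MP_40574a_nt.LinearFormValues
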